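import Mathlib

set_option autoImplicit false

open Set MeasureTheory

namespace Pool.Agent.Results.MP_68eddd_an.Counter

/-- A branch: the interval `[l, r]` and the matrix with rows `(a, b)`, `(c, d)`. -/
structure Br where
  (l r a b c d : ℝ)

/-- The planar map of a branch. -/
noncomputable def Br.T (β : Br) (w : ℝ × ℝ) : ℝ × ℝ :=
  ((β.a * w.1 + β.b) / (β.c * w.1 + β.d), (β.c * w.1 + β.d) ^ 2 * w.2 - β.c * (β.c * w.1 + β.d))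

/-- The union of the images of the parts of `K` over the branch intervals. -/
def F {n : ℕ} (β : Fin n → Br) (K : Set (ℝ × ℝ)) : Set (ℝ × ℝ) :=
  ⋃ i, (β i).T '' (K ∩ Icc (β i).l (β i).r ×ˢ univ)

/-- The standing hypotheses on a finite family of branches over `I`. -/
def Adm {n : ℕ} (I : Set ℝ) (β : Fin n → Br) : Prop :=
  (⋃ i, Icc (β i).l (β i).r) = I ∧
  (Pairwise fun i j => volume (Icc (β i).l (β i).r ∩ Icc (β j).l (β j).r) = 0) ∧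
  (∀ i, (β i).l < (β i).r ∧ (β i).a * (β i).d - (β i).b * (β i).c = 1 ∧ 0 ≤ (β i).c ∧
    ∀ x ∈ Icc (β i).l (β i).r, (β i).c * x + (β i).d ≠ 0) ∧
  (⋃ i, (fun x => ((β i).T (x, 0)).1) '' Icc (β i).l (β i).r) = I ∧
  (∃ k < 1, ∀ i, ∀ x ∈ Icc (β i).l (β i).r, ((β i).c * x + (β i).d) ^ 2 ≤ k) ∧
  ∃ C, ∀ i, ∀ x ∈ Icc (β i).l (β i).r, |(β i).c * ((β i).c * x + (β i).d)| ≤ C

lemma F_mono {n : ℕ} (β : Fin n → Br) : Monotone (F β) := fun _ _ h =>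
  iUnion_mono fun _ => image_mono (inter_subset_inter_left _ h)

lemma attractor {n : ℕ} (β : Fin n → Br)
    (h0 : ∀ i, ∀ x ∈ Icc (β i).l (β i).r, (β i).c * x + (β i).d ≠ 0) (A B : Set (ℝ × ℝ))
    (hB : IsCompact B) (hAB : A ⊆ B) (hA : A ⊆ F β A) (hFB : F β B ⊆ B) :
    ∃ K, IsCompact K ∧ A ⊆ K ∧ K ⊆ B ∧ F β K = K := by
  have cl : ∀ i, IsClosed (Icc (β i).l (β i).r ×ˢ (univ : Set ℝ)) := fun i =>
    isClosed_Icc.prod isClosed_univ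
  have ct : ∀ i, ContinuousOn (β i).T (Icc (β i).l (β i).r ×ˢ univ) := fun i =>
    ContinuousOn.prodMk (ContinuousOn.div (by fun_prop) (by fun_prop) fun w hw => h0 i _ hw.1)
      (by fun_prop)
  have cp : ∀ m, IsCompact ((F β)^[m] B) := by
    intro m
    induction m with
    | zero => exact hB
    | succ m ih =>
      rw [Function.iterate_succ_apply']
      exact isCompact_iUnion fun i =>
        (ih.inter_right (cl i)).image_of_continuousOn ((ct i).mono inter_subset_right)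
  have an : ∀ m, (F β)^[m + 1] B ⊆ (F β)^[m] B := fun m => (F_mono β).iterate m hFB
  refine ⟨⋂ m, (F β)^[m] B, hB.of_isClosed_subset (isClosed_iInter fun m => (cp m).isClosed)
    (iInter_subset _ 0), subset_iInter fun m => ?_, iInter_subset _ 0,
    subset_antisymm (subset_iInter fun m => ?_) fun z hz => ?_⟩
  · induction m with
    | zero => exact hAB
    | succ m ih =>
      rw [Function.iterate_succ_apply']
      exact hA.trans (F_mono β ih)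
  · refine (F_mono β (iInter_subset _ m)).trans ?_
    rw [← Function.iterate_succ_apply' (F β)]
    exact an m
  · have cC : IsClosed (⋃ i, Icc (β i).l (β i).r ×ˢ univ ∩ (β i).T ⁻¹' {z}) :=
      isClosed_iUnion_of_finite fun i => (ct i).preimage_isClosed_of_isClosed (cl i) isClosed_singleton
    obtain ⟨w, hw⟩ := IsCompact.nonempty_iInter_of_sequence_nonempty_isCompact_isClosed
      (fun m => (F β)^[m] B ∩ ⋃ i, Icc (β i).l (β i).r ×ˢ univ ∩ (β i).T ⁻¹' {z})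
      (fun m => inter_subset_inter_left _ (an m)) (fun m => by
        have := mem_iInter.1 hz (m + 1)
        rw [Function.iterate_succ_apply'] at this
        obtain ⟨i, w, hw, e⟩ := mem_iUnion.1 this
        exact ⟨w, hw.1, mem_iUnion.2 ⟨i, hw.2, e⟩⟩) (hB.inter_right cC)
      fun m => (cp m).isClosed.inter cC
    obtain ⟨i, h1, h2⟩ := mem_iUnion.1 (mem_iInter.1 hw 0).2
    exact mem_iUnion.2 ⟨i, w, ⟨mem_iInter.2 fun m => (mem_iInter.1 hw m).1, h1⟩, h2⟩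

noncomputable def b1 : Br := ⟨0, 1 / 2, -26 / 42, -36 / 42, 23 / 42, -36 / 42⟩
noncomputable def b2 : Br := ⟨1 / 2, 1, -15 / 28, -17 / 28, 17 / 28, -33 / 28⟩
noncomputable def b3 : Br := ⟨1, 7 / 5, 49 / 28, -49 / 28, 9 / 28, 7 / 28⟩
noncomputable def b4 : Br := ⟨7 / 5, 2, 60 / 42, -84 / 42, 11 / 42, 14 / 42⟩
noncomputable def bb : Fin 4 → Br := ![b1, b2, b3, b4]

def K1 : Set (ℝ × ℝ) := {w | 0 ≤ w.1 ∧ w.1 ≤ 1 ∧ w.2 * (w.1 + 24) ≤ 1 ∧ w.2 * (w.1 - 25) ≤ 1}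
def K2 : Set (ℝ × ℝ) :=
  {w | 1 ≤ w.1 ∧ w.1 ≤ 2 ∧ w.2 * (9 * w.1 + 7) ≤ 9 ∧ 11 ≤ w.2 * (11 * w.1 + 14)}

lemma onto (β : Br) (hd : β.a * β.d - β.b * β.c = 1) (z : ℝ × ℝ) (h : β.a - β.c * z.1 ≠ 0) :
    β.T ((β.d * z.1 - β.b) / (β.a - β.c * z.1),
      (β.a - β.c * z.1) ^ 2 * z.2 + β.c * (β.a - β.c * z.1)) = z := by
  have e : β.c * ((β.d * z.1 - β.b) / (β.a - β.c * z.1)) + β.d = 1 / (β.a - β.c * z.1) := by
    field_simp
    linear_combination hd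
  have e2 : β.a * ((β.d * z.1 - β.b) / (β.a - β.c * z.1)) + β.b = z.1 / (β.a - β.c * z.1) := by
    rw [eq_div_iff h, add_mul, mul_assoc, div_mul_cancel₀ _ h]
    linear_combination z.1 * hd
  ext
  · simp only [Br.T, e, e2]
    rw [div_div_div_cancel_right₀ h, div_one]
  · simp only [Br.T, e]
    field_simp
    ring

lemma dm (y p u : ℝ) (hu : u ≠ 0) (k : ℝ) : u * y * (p / u + k) = y * (p + k * u) := by
  field_simp

lemma f1 (w : ℝ × ℝ) (h : w ∈ K1) (hx : w.1 ≤ 1 / 2) : b1.T w ∈ K2 := by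
  obtain ⟨h1, -, h3, h4⟩ := h
  have hu : 23 / 42 * w.1 + -36 / 42 < 0 := by linarith
  have e := dm ((23 / 42 * w.1 + -36 / 42) * w.2 - 23 / 42) (-26 / 42 * w.1 + -36 / 42) _ hu.ne
  refine ⟨?_, ?_, ?_, ?_⟩ <;> simp only [Br.T, b1]
  · rw [le_div_iff_of_neg hu]; linarith
  · rw [div_le_iff_of_neg hu]; linarith
  · nlinarith [e (7 / 9), mul_nonneg (neg_pos.2 hu).le (sub_nonneg.2 h3),
      mul_nonneg (neg_pos.2 hu).le (sub_nonneg.2 h4)]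
  · nlinarith [e (14 / 11), mul_nonneg (neg_pos.2 hu).le (sub_nonneg.2 h4)]

lemma f2 (w : ℝ × ℝ) (h : w ∈ K1) (hx : 1 / 2 ≤ w.1) : b2.T w ∈ K2 := by
  obtain ⟨-, h2, h3, h4⟩ := h
  have hu : 17 / 28 * w.1 + -33 / 28 < 0 := by linarith
  have e := dm ((17 / 28 * w.1 + -33 / 28) * w.2 - 17 / 28) (-15 / 28 * w.1 + -17 / 28) _ hu.ne
  refine ⟨?_, ?_, ?_, ?_⟩ <;> simp only [Br.T, b2]
  · rw [le_div_iff_of_neg hu]; linarith
  · rw [div_le_iff_of_neg hu]; linarith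
  · nlinarith [e (7 / 9), mul_nonneg (neg_pos.2 hu).le (sub_nonneg.2 h3)]
  · nlinarith [e (14 / 11), mul_nonneg (neg_pos.2 hu).le (sub_nonneg.2 h3),
      mul_nonneg (neg_pos.2 hu).le (sub_nonneg.2 h4)]

lemma f3 (w : ℝ × ℝ) (h : w ∈ K2) (hx : w.1 ≤ 7 / 5) : b3.T w ∈ K1 := by
  obtain ⟨h1, -, h3, h4⟩ := h
  have hu : 0 < 9 / 28 * w.1 + 7 / 28 := by linarith
  have e := dm ((9 / 28 * w.1 + 7 / 28) * w.2 - 9 / 28) (49 / 28 * w.1 + -49 / 28) _ hu.ne'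
  refine ⟨?_, ?_, ?_, ?_⟩ <;> simp only [Br.T, b3]
  · rw [le_div_iff₀ hu]; linarith
  · rw [div_le_iff₀ hu]; linarith
  · nlinarith [e 24, mul_nonneg hu.le (sub_nonneg.2 h3), mul_nonneg hu.le (sub_nonneg.2 h4)]
  · nlinarith [e (-25), mul_nonneg hu.le (sub_nonneg.2 h4)]

lemma f4 (w : ℝ × ℝ) (h : w ∈ K2) (hx : 7 / 5 ≤ w.1) : b4.T w ∈ K1 := by
  obtain ⟨-, h2, h3, h4⟩ := h
  have hu : 0 < 11 / 42 * w.1 + 14 / 42 := by linarith
  have e := dm ((11 / 42 * w.1 + 14 / 42) * w.2 - 11 / 42) (60 / 42 * w.1 + -84 / 42) _ hu.ne'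
  refine ⟨?_, ?_, ?_, ?_⟩ <;> simp only [Br.T, b4]
  · rw [le_div_iff₀ hu]; linarith
  · rw [div_le_iff₀ hu]; linarith
  · nlinarith [e 24, mul_nonneg hu.le (sub_nonneg.2 h3)]
  · nlinarith [e (-25), mul_nonneg hu.le (sub_nonneg.2 h3), mul_nonneg hu.le (sub_nonneg.2 h4)]

lemma g1 (z : ℝ × ℝ) (h : z ∈ K2) (hy : z.2 * (z.1 + 1) ≤ 1) :
    z ∈ b1.T '' (K1 ∩ Icc b1.l b1.r ×ˢ univ) := by
  obtain ⟨h1, h2, -, h4⟩ := h
  have hu : -26 / 42 - 23 / 42 * z.1 < 0 := by linarith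
  have e := dm ((-26 / 42 - 23 / 42 * z.1) * z.2 + 23 / 42) (-36 / 42 * z.1 - -36 / 42) _ hu.ne
  have x0 : 0 ≤ (-36 / 42 * z.1 - -36 / 42) / (-26 / 42 - 23 / 42 * z.1) := by
    rw [le_div_iff_of_neg hu]; linarith
  have x1 : (-36 / 42 * z.1 - -36 / 42) / (-26 / 42 - 23 / 42 * z.1) ≤ 1 / 2 := by
    rw [div_le_iff_of_neg hu]; linarith
  refine ⟨_, ?_, onto b1 (by norm_num [b1]) z hu.ne⟩
  refine ⟨⟨x0, x1.trans (by norm_num), ?_, ?_⟩, ⟨x0, x1⟩, trivial⟩ <;> simp only [b1]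
  · nlinarith [e 24, mul_nonneg (neg_pos.2 hu).le (sub_nonneg.2 hy)]
  · nlinarith [e (-25), mul_nonneg (neg_pos.2 hu).le (sub_nonneg.2 h4)]

lemma g2 (z : ℝ × ℝ) (h : z ∈ K2) (hy : 1 ≤ z.2 * (z.1 + 1)) :
    z ∈ b2.T '' (K1 ∩ Icc b2.l b2.r ×ˢ univ) := by
  obtain ⟨h1, h2, h3, -⟩ := h
  have hu : -15 / 28 - 17 / 28 * z.1 < 0 := by linarith
  have e := dm ((-15 / 28 - 17 / 28 * z.1) * z.2 + 17 / 28) (-33 / 28 * z.1 - -17 / 28) _ hu.ne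
  have x0 : 1 / 2 ≤ (-33 / 28 * z.1 - -17 / 28) / (-15 / 28 - 17 / 28 * z.1) := by
    rw [le_div_iff_of_neg hu]; linarith
  have x1 : (-33 / 28 * z.1 - -17 / 28) / (-15 / 28 - 17 / 28 * z.1) ≤ 1 := by
    rw [div_le_iff_of_neg hu]; linarith
  refine ⟨_, ?_, onto b2 (by norm_num [b2]) z hu.ne⟩
  refine ⟨⟨le_trans (by norm_num) x0, x1, ?_, ?_⟩, ⟨x0, x1⟩, trivial⟩ <;> simp only [b2]
  · nlinarith [e 24, mul_nonneg (neg_pos.2 hu).le (sub_nonneg.2 h3)]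
  · nlinarith [e (-25), mul_nonneg (neg_pos.2 hu).le (sub_nonneg.2 hy)]

lemma g3 (z : ℝ × ℝ) (h : z ∈ K1) (hy : z.2 ≤ 0) :
    z ∈ b3.T '' (K2 ∩ Icc b3.l b3.r ×ˢ univ) := by
  obtain ⟨h1, h2, -, h4⟩ := h
  have hu : 0 < 49 / 28 - 9 / 28 * z.1 := by linarith
  have e := dm ((49 / 28 - 9 / 28 * z.1) * z.2 + 9 / 28) (7 / 28 * z.1 - -49 / 28) _ hu.ne'
  have x0 : 1 ≤ (7 / 28 * z.1 - -49 / 28) / (49 / 28 - 9 / 28 * z.1) := by
    rw [le_div_iff₀ hu]; linarith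
  have x1 : (7 / 28 * z.1 - -49 / 28) / (49 / 28 - 9 / 28 * z.1) ≤ 7 / 5 := by
    rw [div_le_iff₀ hu]; linarith
  refine ⟨_, ?_, onto b3 (by norm_num [b3]) z hu.ne'⟩
  refine ⟨⟨x0, x1.trans (by norm_num), ?_, ?_⟩, ⟨x0, x1⟩, trivial⟩ <;> simp only [b3]
  · nlinarith [e (7 / 9), mul_nonneg hu.le (neg_nonneg.2 hy)]
  · nlinarith [e (14 / 11), mul_nonneg hu.le (sub_nonneg.2 h4)]

lemma g4 (z : ℝ × ℝ) (h : z ∈ K1) (hy : 0 ≤ z.2) :
    z ∈ b4.T '' (K2 ∩ Icc b4.l b4.r ×ˢ univ) := by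
  obtain ⟨h1, h2, h3, -⟩ := h
  have hu : 0 < 60 / 42 - 11 / 42 * z.1 := by linarith
  have e := dm ((60 / 42 - 11 / 42 * z.1) * z.2 + 11 / 42) (14 / 42 * z.1 - -84 / 42) _ hu.ne'
  have x0 : 7 / 5 ≤ (14 / 42 * z.1 - -84 / 42) / (60 / 42 - 11 / 42 * z.1) := by
    rw [le_div_iff₀ hu]; linarith
  have x1 : (14 / 42 * z.1 - -84 / 42) / (60 / 42 - 11 / 42 * z.1) ≤ 2 := by
    rw [div_le_iff₀ hu]; linarith
  refine ⟨_, ?_, onto b4 (by norm_num [b4]) z hu.ne'⟩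
  refine ⟨⟨le_trans (by norm_num) x0, x1, ?_, ?_⟩, ⟨x0, x1⟩, trivial⟩ <;> simp only [b4]
  · nlinarith [e (7 / 9), mul_nonneg hu.le (sub_nonneg.2 h3)]
  · nlinarith [e (14 / 11), mul_nonneg hu.le hy]

lemma mem_F (K : Set (ℝ × ℝ)) (z : ℝ × ℝ) : z ∈ F bb K ↔ z ∈ b1.T '' (K ∩ Icc b1.l b1.r ×ˢ univ) ∨
    z ∈ b2.T '' (K ∩ Icc b2.l b2.r ×ˢ univ) ∨ z ∈ b3.T '' (K ∩ Icc b3.l b3.r ×ˢ univ) ∨
    z ∈ b4.T '' (K ∩ Icc b4.l b4.r ×ˢ univ) := by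
  simp only [F, mem_iUnion, Fin.exists_fin_succ, bb, Matrix.cons_val_zero, Matrix.cons_val_succ,
    IsEmpty.exists_iff, or_false]

lemma back : K1 ∪ K2 ⊆ F bb (K1 ∪ K2) := by
  have l := fun s => inter_subset_inter_left s (subset_union_left (s := K1) (t := K2))
  have r := fun s => inter_subset_inter_left s (subset_union_right (s := K1) (t := K2))
  rintro z (h | h) <;> rw [mem_F]
  · rcases le_total z.2 0 with hy | hy
    · exact Or.inr (Or.inr (Or.inl (image_mono (r _) (g3 z h hy))))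
    · exact Or.inr (Or.inr (Or.inr (image_mono (r _) (g4 z h hy))))
  · rcases le_total (z.2 * (z.1 + 1)) 1 with hy | hy
    · exact Or.inl (image_mono (l _) (g1 z h hy))
    · exact Or.inr (Or.inl (image_mono (l _) (g2 z h hy)))

def B : Set (ℝ × ℝ) := (K1 ∪ K2) ∪ (Icc (0, -1 / 5) (0, 1 / 24) ∪ Icc (1, -1 / 24) (1, 1 / 5) ∪
  Icc (1, 3 / 10) (1, 9 / 16) ∪ Icc (2, 3 / 10) (2, 11 / 20))

lemma k1 (w : ℝ × ℝ) (h : w ∈ K1) : -1 / 24 ≤ w.2 ∧ w.2 ≤ 1 / 24 := by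
  obtain ⟨h1, h2, h3, h4⟩ := h
  constructor <;> nlinarith

lemma k2 (w : ℝ × ℝ) (h : w ∈ K2) : 3 / 10 ≤ w.2 ∧ w.2 ≤ 9 / 16 := by
  obtain ⟨h1, h2, h3, h4⟩ := h
  constructor <;> nlinarith

lemma cases_B (w : ℝ × ℝ) (h : w ∈ B) : (w ∈ K1 ∧ w.1 < 1) ∨ (w ∈ K2 ∧ 1 < w.1) ∨
    (w.1 = 0 ∧ -1 / 5 ≤ w.2 ∧ w.2 ≤ 1 / 24) ∨ (w.1 = 1 ∧ -1 / 24 ≤ w.2 ∧ w.2 ≤ 9 / 16) ∨
    (w.1 = 2 ∧ 3 / 10 ≤ w.2 ∧ w.2 ≤ 11 / 20) := by
  rcases h with (h | h) | (((h | h) | h) | h)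
  · rcases h.2.1.lt_or_eq with e | e
    · exact Or.inl ⟨h, e⟩
    · exact Or.inr (Or.inr (Or.inr (Or.inl ⟨e, (k1 w h).1, by linarith [(k1 w h).2]⟩)))
  · rcases h.1.lt_or_eq with e | e
    · exact Or.inr (Or.inl ⟨h, e⟩)
    · exact Or.inr (Or.inr (Or.inr (Or.inl ⟨e.symm, by linarith [(k2 w h).1], (k2 w h).2⟩)))
  · exact Or.inr (Or.inr (Or.inl ⟨le_antisymm h.2.1 h.1.1, h.1.2, h.2.2⟩))
  · exact Or.inr (Or.inr (Or.inr (Or.inl ⟨le_antisymm h.2.1 h.1.1, h.1.2,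
      le_trans h.2.2 (by norm_num)⟩)))
  · exact Or.inr (Or.inr (Or.inr (Or.inl ⟨le_antisymm h.2.1 h.1.1, le_trans (by norm_num) h.1.2,
      h.2.2⟩)))
  · exact Or.inr (Or.inr (Or.inr (Or.inr ⟨le_antisymm h.2.1 h.1.1, h.1.2, h.2.2⟩)))

lemma trap : F bb B ⊆ B := by
  intro z hz
  rcases (mem_F _ _).1 hz with ⟨w, ⟨hw, ⟨h1, h2⟩, -⟩, rfl⟩ | ⟨w, ⟨hw, ⟨h1, h2⟩, -⟩, rfl⟩ |
    ⟨w, ⟨hw, ⟨h1, h2⟩, -⟩, rfl⟩ | ⟨w, ⟨hw, ⟨h1, h2⟩, -⟩, rfl⟩ <;>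
  simp only [b1, b2, b3, b4] at h1 h2 <;>
  rcases cases_B w hw with ⟨h, e⟩ | ⟨h, e⟩ | ⟨e, h, h'⟩ | ⟨e, h, h'⟩ | ⟨e, h, h'⟩ <;>
  try (exfalso; linarith)
  · exact Or.inl (Or.inr (f1 w h h2))
  · refine Or.inr (Or.inl (Or.inr ?_))
    norm_num [Br.T, b1, e, Prod.le_def]
    constructor <;> linarith
  · exact Or.inl (Or.inr (f2 w h h1))
  · refine Or.inr (Or.inr ?_)
    norm_num [Br.T, b2, e, Prod.le_def]
    constructor <;> linarith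
  · exact Or.inl (Or.inl (f3 w h h2))
  · refine Or.inr (Or.inl (Or.inl (Or.inl ?_)))
    norm_num [Br.T, b3, e, Prod.le_def]
    constructor <;> linarith
  · exact Or.inl (Or.inl (f4 w h h1))
  · refine Or.inr (Or.inl (Or.inl (Or.inr ?_)))
    norm_num [Br.T, b4, e, Prod.le_def]
    constructor <;> linarith

lemma gap (w : ℝ × ℝ) (h : w ∈ B) : (0 ≤ w.1 ∧ w.1 ≤ 2) ∧ (-1 ≤ w.2 ∧ w.2 ≤ 1) ∧ w.2 ≠ 1 / 4 := by
  rcases h with (h | h) | (((h | h) | h) | h)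
  · have := k1 w h
    exact ⟨⟨h.1, by linarith [h.2.1]⟩, ⟨by linarith, by linarith⟩, by linarith⟩
  · have := k2 w h
    exact ⟨⟨by linarith [h.1], h.2.1⟩, ⟨by linarith, by linarith⟩, by linarith⟩
  all_goals
    obtain ⟨⟨h1, h2⟩, h3, h4⟩ := h
    simp only at h1 h2 h3 h4
    exact ⟨⟨by linarith, by linarith⟩, ⟨by linarith, by linarith⟩, fun h => by linarith⟩

lemma cB : IsCompact B := by
  refine (isCompact_Icc (a := ((0 : ℝ), (-1 : ℝ))) (b := (2, 1))).of_isClosed_subset ?_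
    fun w h => ⟨⟨(gap w h).1.1, (gap w h).2.1.1⟩, (gap w h).1.2, (gap w h).2.1.2⟩
  refine (IsClosed.union ?_ ?_).union
    (((isClosed_Icc.union isClosed_Icc).union isClosed_Icc).union isClosed_Icc) <;>
  refine IsClosed.and ?_ (IsClosed.and ?_ (IsClosed.and ?_ ?_)) <;>
  exact isClosed_le (by fun_prop) (by fun_prop)

lemma fib (x : ℝ) (hx : x ∈ Icc (0 : ℝ) 2) :
    ∃ p q : ℝ, p < q ∧ ∀ y ∈ Icc p q, (x, y) ∈ K1 ∪ K2 := by
  obtain ⟨h0, h2⟩ := hx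
  rcases le_total x 1 with h | h
  · exact ⟨0, 1 / 25, by norm_num, fun y hy => Or.inl ⟨h0, h, by nlinarith [hy.1, hy.2],
      by nlinarith [hy.1, hy.2]⟩⟩
  · refine ⟨11 / (11 * x + 14), 9 / (9 * x + 7), ?_, fun y hy => Or.inr ⟨h, h2, ?_, ?_⟩⟩
    · rw [div_lt_div_iff₀ (by positivity) (by positivity)]
      linarith
    · exact (le_div_iff₀ (by positivity)).1 hy.2
    · exact (div_le_iff₀ (by positivity)).1 hy.1

lemma bound : ∀ i, ∀ x ∈ Icc (bb i).l (bb i).r, ((bb i).c * x + (bb i).d) ^ 2 ≤ 49 / 64 ∧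
    (bb i).c * x + (bb i).d ≠ 0 ∧ |(bb i).c * ((bb i).c * x + (bb i).d)| ≤ 1 := by
  intro i x hx
  fin_cases i <;> simp only [bb, b1, b2, b3, b4, Fin.zero_eta, Fin.mk_one, Fin.reduceFinMk,
    Matrix.cons_val] at hx ⊢ <;>
  exact ⟨by nlinarith [hx.1, hx.2], fun h => by linarith [hx.1, hx.2],
    abs_le.2 ⟨by linarith [hx.1, hx.2], by linarith [hx.1, hx.2]⟩⟩

lemma adm : Adm (Icc 0 2) bb := by
  refine ⟨?_, fun i j hij => ?_, fun i => ⟨?_, ?_, ?_, fun x hx => (bound i x hx).2.1⟩, ?_,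
    ⟨_, by norm_num, fun i x hx => (bound i x hx).1⟩, _, fun i x hx => (bound i x hx).2.2⟩
  · ext x
    simp only [mem_iUnion, Fin.exists_fin_succ, bb, Matrix.cons_val_zero, Matrix.cons_val_succ,
      IsEmpty.exists_iff, or_false, b1, b2, b3, b4, mem_Icc]
    constructor
    · rintro (h | h | h | h) <;> constructor <;> linarith [h.1, h.2]
    · intro h
      by_cases a : x ≤ 1 / 2
      · exact Or.inl ⟨h.1, a⟩
      by_cases b : x ≤ 1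
      · exact Or.inr (Or.inl ⟨by linarith, b⟩)
      by_cases c : x ≤ 7 / 5
      · exact Or.inr (Or.inr (Or.inl ⟨by linarith, c⟩))
      · exact Or.inr (Or.inr (Or.inr ⟨by linarith, h.2⟩))
  · beta_reduce
    rw [Icc_inter_Icc, Real.volume_Icc, ENNReal.ofReal_eq_zero]
    fin_cases i <;> fin_cases j <;> first | exact absurd rfl hij | norm_num [bb, b1, b2, b3, b4]
  · fin_cases i <;> norm_num [bb, b1, b2, b3, b4]
  · fin_cases i <;> norm_num [bb, b1, b2, b3, b4]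
  · fin_cases i <;> norm_num [bb, b1, b2, b3, b4]
  · refine subset_antisymm (iUnion_subset fun i => ?_) fun x hx => ?_
    · rintro _ ⟨x, hx, rfl⟩
      obtain ⟨p, q, hpq, h⟩ := fib x (by
        fin_cases i <;> simp only [bb, b1, b2, b3, b4, Fin.zero_eta, Fin.mk_one, Fin.reduceFinMk,
          Matrix.cons_val] at hx <;> exact ⟨by linarith [hx.1], by linarith [hx.2]⟩)
      exact (gap _ (trap (mem_iUnion.2
        ⟨i, (x, p), ⟨Or.inl (h p ⟨le_rfl, hpq.le⟩), hx, trivial⟩, rfl⟩))).1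
    · obtain ⟨p, q, hpq, h⟩ := fib x hx
      obtain ⟨i, w, hw, e⟩ := mem_iUnion.1 (back (h p ⟨le_rfl, hpq.le⟩))
      exact mem_iUnion.2 ⟨i, w.1, hw.2.1, congrArg Prod.fst e⟩

theorem result : ∃ (p q : ℝ) (n : ℕ) (β : Fin n → Br) (K : Set (ℝ × ℝ)), p < q ∧ Adm (Icc p q) β ∧
    IsCompact K ∧ Prod.fst '' K = Icc p q ∧ K = closure (F β K) ∧ 0 < volume K ∧
    volume (K \ F β K) = 0 ∧ (∀ x ∈ Icc p q, 0 < volume {y | (x, y) ∈ K}) ∧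
    ¬ IsPreconnected K := by
  obtain ⟨K, hK, h1, h2, h3⟩ := attractor bb (fun i x hx => (bound i x hx).2.1) _ B cB
    subset_union_left back trap
  refine ⟨0, 2, 4, bb, K, two_pos, adm, hK, subset_antisymm ?_ fun x hx => ?_,
    by rw [h3, hK.isClosed.closure_eq], ?_, by simp [h3], fun x hx => ?_, fun h => ?_⟩
  · rintro _ ⟨w, hw, rfl⟩
    exact (gap w (h2 hw)).1
  · obtain ⟨p, q, hpq, h⟩ := fib x hx
    exact ⟨_, h1 (h p ⟨le_rfl, hpq.le⟩), rfl⟩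
  · refine lt_of_lt_of_le ?_ (measure_mono (s := Icc 0 1 ×ˢ Icc 0 (1 / 25)) fun w hw =>
      h1 (Or.inl ⟨hw.1.1, hw.1.2, by nlinarith [hw.1.1, hw.1.2, hw.2.1, hw.2.2],
        by nlinarith [hw.1.1, hw.1.2, hw.2.1, hw.2.2]⟩))
    rw [Measure.volume_eq_prod, Measure.prod_prod]
    simp
  · obtain ⟨p, q, hpq, h⟩ := fib x hx
    refine lt_of_lt_of_le ?_ (measure_mono (s := Icc p q) fun y hy => h1 (h y hy))
    simpa using hpq
  · obtain ⟨w, hw, e⟩ := h.intermediate_value (a := (0, 0)) (b := (1, 1 / 2))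
      (h1 (Or.inl (by norm_num [K1]))) (h1 (Or.inr (by norm_num [K2]))) continuous_snd.continuousOn
      (show (1 / 4 : ℝ) ∈ _ by norm_num)
    exact (gap w (h2 hw)).2.2 e

end Pool.Agent.Results.MP_68eddd_an.Counter
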